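import Pool.Agent.H89.L.Y116_UV_Defs
import Pool.Agent.H89.L.Q193_LT_Prime

/-!
# Labelled graphs of maximal degree three: definitions
-/

set_option autoImplicit false

open CategoryTheory AlgebraicGeometry MvPolynomial Pool.Agent.Y116.UV

namespace Pool.Agent.H9.LG

/-- A finite bipartite graph with the vertices `0, …, m - 1`, of maximal degree at most three, whose edges
are labelled by elements of `k` and by variables `x_1, …, x_d` (a label may be used for several edges).
(The labels of the pairs which are not edges are irrelevant.) -/
structure LabelledGraph (k : Type) (d : ℕ) where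
  /-- the number of vertices -/
  m : ℕ
  /-- the graph -/
  graph : SimpleGraph (Fin m)
  /-- the labels -/
  label : Sym2 (Fin m) → k ⊕ Fin d
  bipartite : graph.Colorable 2
  degree_le : ∀ v, {w | graph.Adj v w}.ncard ≤ 3

/-- All edges are labelled by `1` or by variables. -/
def LabelledGraph.Ones {k : Type} [CommRing k] {d : ℕ} (G : LabelledGraph k d) : Prop :=
  ∀ e ∈ G.graph.edgeSet, ∀ c, G.label e = Sum.inl c → c = 1

open Classical in
/-- The adjacency matrix of the labelled graph: the entry at the places `(v, w)` and `(w, v)` is the label
of the edge between `v` and `w` if there is one, and zero otherwise. -/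
noncomputable def LabelledGraph.adj {k : Type} [CommRing k] {d : ℕ} (G : LabelledGraph k d) :
    Matrix (Fin G.m) (Fin G.m) (MvPolynomial (Fin d) k) :=
  Matrix.of fun v w => if G.graph.Adj v w then Sum.elim C X (G.label s(v, w)) else 0

/-- The open subscheme of the affine space of dimension `d` of the points `x` for which the adjacency
matrix of the labelled graph is invertible: the spectrum of `k[x_1, …, x_d][1 / det]`. -/
noncomputable def LabelledGraph.scheme {k : Type} [CommRing k] {d : ℕ} (G : LabelledGraph k d) :
    Sch k :=
  aff k (Localization.Away G.adj.det)

/-- **The labelled graphs of maximal degree three decide** the properties `C θ` (`θ` in an index set) of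
the schemes of the class `Q`, dimension by dimension; the properties `P θ` are defined for all separated
schemes of finite type.

* `dim`: `C θ` is true for all schemes of the class of dimension at most `n` if and only if `P θ` is true
  for the open subschemes of the affine space of dimension `n + 1` where the adjacency matrix of a
  labelled graph with `n + 1` variables is invertible, for all labelled bipartite graphs of maximal degree
  at most three.
* `dim_ones`: if all elements of `k` are quotients of integers (`k` is `ℚ` or `𝔽_p`), the same for the graphs
  whose edges are labelled by `1` and by variables.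
* `list`: for every scheme `X` of the class of dimension at most `n` there are finitely many such labelled
  graphs such that, for all `θ`, `P θ` for their schemes implies `C θ` for `X`. -/
structure GraphsDecide {k : Type} [Field k] {Θ : Type*} (Q : Sch k → Prop)
    (C P : Θ → Sch k → Prop) : Prop where
  dim : ∀ (θ : Θ) (n : ℕ), (∀ X, Q X → topologicalKrullDim X.left ≤ n → C θ X) ↔
    ∀ G : LabelledGraph k (n + 1), P θ G.scheme
  dim_ones : Pool.Agent.Q193.LT.Frac k → ∀ (θ : Θ) (n : ℕ),
    (∀ X, Q X → topologicalKrullDim X.left ≤ n → C θ X) ↔
      ∀ G : LabelledGraph k (n + 1), G.Ones → P θ G.scheme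
  list : ∀ (n : ℕ) (X : Sch k), Q X → topologicalKrullDim X.left ≤ n →
    ∃ L : List (LabelledGraph k (n + 1)), (Pool.Agent.Q193.LT.Frac k → ∀ G ∈ L, G.Ones) ∧
      ∀ θ, (∀ G ∈ L, P θ G.scheme) → C θ X

end Pool.Agent.H9.LG
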