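import Pool.Agent.H9.LG.GDefs
import Pool.Agent.H9.LG.Dimn
import Pool.Agent.H9.LS.Opens

/-!
# From sparse matrices to labelled graphs of maximal degree three
-/

set_option autoImplicit false

open CategoryTheory AlgebraicGeometry MvPolynomial Pool.Agent.Y116.UV Pool.Agent.Z125.UN Matrix

namespace Pool.Agent.H9.LG

section det

variable {S : Type} [CommRing S]

/-- the block matrix -/
def dbl {m : ℕ} (L : Matrix (Fin m) (Fin m) S) : Matrix (Fin m ⊕ Fin m) (Fin m ⊕ Fin m) S :=
  fromBlocks 0 L Lᵀ 0

lemma det_dbl {m : ℕ} (L : Matrix (Fin m) (Fin m) S) :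
    ∃ u : S, u * u = 1 ∧ (dbl L).det = u * L.det ^ 2 := by
  let s : Matrix (Fin m ⊕ Fin m) (Fin m ⊕ Fin m) S := fromBlocks 0 1 1 0
  have h1 : s * s = 1 := by
    simp only [s, fromBlocks_multiply]
    simp
  have h2 : s.det * s.det = 1 := by rw [← det_mul, h1, det_one]
  have h3 : dbl L * s = fromBlocks L 0 0 Lᵀ := by
    simp only [dbl, s, fromBlocks_multiply]
    simp
  have h4 : (dbl L).det * s.det = L.det ^ 2 := by
    rw [← det_mul, h3, det_fromBlocks_zero₂₁, det_transpose]
    ring
  refine ⟨s.det, h2, ?_⟩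
  calc (dbl L).det = (dbl L).det * (s.det * s.det) := by rw [h2, mul_one]
    _ = s.det * ((dbl L).det * s.det) := by ring
    _ = _ := by rw [h4]

end det

section graph

variable {k : Type} [CommRing k] {d m : ℕ}

/-- the adjacency relation of the bipartite graph of a matrix -/
def badj (M : Matrix (Fin m) (Fin m) (MvPolynomial (Fin d) k)) :
    Fin m ⊕ Fin m → Fin m ⊕ Fin m → Prop
  | Sum.inl i, Sum.inr j => M i j ≠ 0
  | Sum.inr j, Sum.inl i => M i j ≠ 0
  | _, _ => False

/-- the bipartite graph of a matrix -/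
def bip (M : Matrix (Fin m) (Fin m) (MvPolynomial (Fin d) k)) : SimpleGraph (Fin m ⊕ Fin m) where
  Adj := badj M
  symm := ⟨by
    rintro (i | i) (j | j) h
    · exact h
    · exact h
    · exact h
    · exact h⟩
  loopless := ⟨by
    rintro (i | i) h
    · exact h
    · exact h⟩

/-- labels -/
def blab (f : Fin m → Fin m → k ⊕ Fin d) : Fin m ⊕ Fin m → Fin m ⊕ Fin m → k ⊕ Fin d
  | Sum.inl i, Sum.inr j => f i j
  | Sum.inr j, Sum.inl i => f i j
  | _, _ => Sum.inl 1

lemma blab_symm (f : Fin m → Fin m → k ⊕ Fin d) (x y : Fin m ⊕ Fin m) :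
    blab f x y = blab f y x := by
  rcases x with i | i <;> rcases y with j | j <;> rfl

/-- the labelled graph of a thin matrix -/
noncomputable def lgraph (M : Matrix (Fin m) (Fin m) (MvPolynomial (Fin d) k)) (hT : Thin M)
    (f : Fin m → Fin m → k ⊕ Fin d) : LabelledGraph k d where
  m := m + m
  graph := (bip M).comap finSumFinEquiv.symm
  label := Sym2.lift ⟨fun a b => blab f (finSumFinEquiv.symm a) (finSumFinEquiv.symm b),
    fun _ _ => blab_symm f _ _⟩
  bipartite := by
    let c : ((bip M).comap finSumFinEquiv.symm).Coloring Bool :=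
      SimpleGraph.Coloring.mk (fun a => (finSumFinEquiv.symm a).isLeft) (by
        intro a b h
        change badj M (finSumFinEquiv.symm a) (finSumFinEquiv.symm b) at h
        revert h
        generalize finSumFinEquiv.symm a = x
        generalize finSumFinEquiv.symm b = y
        rcases x with i | i <;> rcases y with j | j <;> simp [badj])
    exact c.colorable
  degree_le := by
    intro v
    obtain ⟨x, rfl⟩ := finSumFinEquiv.surjective v
    have key : ∀ T : Set (Fin m), T.ncard ≤ 3 → ∀ g : Fin m → Fin (m + m), (g '' T).ncard ≤ 3 :=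
      fun T hT g => (Set.ncard_image_le (Set.toFinite T)).trans hT
    rcases x with i | i
    · refine le_trans (le_of_eq ?_) (key {j | M i j ≠ 0} (hT.1 i)
        fun j => finSumFinEquiv (Sum.inr j))
      congr 1
      ext w
      obtain ⟨y, rfl⟩ := finSumFinEquiv.surjective w
      simp only [Set.mem_image, Set.mem_ofPred_eq, SimpleGraph.comap_adj, Equiv.symm_apply_apply]
      change badj M (Sum.inl i) y ↔ _
      constructor
      · intro h
        rcases y with j | j
        · exact h.elim
        · exact ⟨j, h, rfl⟩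
      · rintro ⟨j, hj, h⟩
        rw [← finSumFinEquiv.injective h]
        exact hj
    · refine le_trans (le_of_eq ?_) (key {j | M j i ≠ 0} (hT.2 i)
        fun j => finSumFinEquiv (Sum.inl j))
      congr 1
      ext w
      obtain ⟨y, rfl⟩ := finSumFinEquiv.surjective w
      simp only [Set.mem_image, Set.mem_ofPred_eq, SimpleGraph.comap_adj, Equiv.symm_apply_apply]
      change badj M (Sum.inr i) y ↔ _
      constructor
      · intro h
        rcases y with j | j
        · exact ⟨j, h, rfl⟩
        · exact h.elim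
      · rintro ⟨j, hj, h⟩
        rw [← finSumFinEquiv.injective h]
        exact hj

lemma adj_lgraph (M : Matrix (Fin m) (Fin m) (MvPolynomial (Fin d) k)) (hT : Thin M)
    (f : Fin m → Fin m → k ⊕ Fin d) (hf : ∀ i j, M i j = Sum.elim C X (f i j)) :
    (lgraph M hT f).adj = (dbl M).submatrix finSumFinEquiv.symm finSumFinEquiv.symm := by
  classical
  ext1 v w
  change (if badj M (finSumFinEquiv.symm v) (finSumFinEquiv.symm w) then
    Sum.elim C X (blab f (finSumFinEquiv.symm v) (finSumFinEquiv.symm w)) else 0) =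
    dbl M (finSumFinEquiv.symm v) (finSumFinEquiv.symm w)
  generalize finSumFinEquiv.symm v = x
  generalize finSumFinEquiv.symm w = y
  rcases x with i | i <;> rcases y with j | j
  · simp [badj, dbl]
  · by_cases h : badj M (Sum.inl i) (Sum.inr j)
    · rw [if_pos h]
      exact (hf i j).symm
    · rw [if_neg h]
      exact (not_not.mp h).symm
  · by_cases h : badj M (Sum.inr i) (Sum.inl j)
    · rw [if_pos h]
      exact (hf j i).symm
    · rw [if_neg h]
      exact (not_not.mp h).symm
  · simp [badj, dbl]

lemma ones_lgraph (M : Matrix (Fin m) (Fin m) (MvPolynomial (Fin d) k)) (hT : Thin M)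
    (f : Fin m → Fin m → k ⊕ Fin d) (hf : ∀ i j, M i j ≠ 0 → ∀ c, f i j = Sum.inl c → c = 1) :
    (lgraph M hT f).Ones := by
  intro e he c hc
  induction e using Sym2.ind with
  | _ v w =>
    change badj M (finSumFinEquiv.symm v) (finSumFinEquiv.symm w) at he
    change blab f (finSumFinEquiv.symm v) (finSumFinEquiv.symm w) = Sum.inl c at hc
    revert he hc
    generalize finSumFinEquiv.symm v = x
    generalize finSumFinEquiv.symm w = y
    rcases x with i | i <;> rcases y with j | j
    · intro h
      exact h.elim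
    · exact fun h1 h2 => hf i j h1 c h2
    · exact fun h1 h2 => hf j i h1 c h2
    · intro h
      exact h.elim

end graph

section main

variable {k : Type} [Field k] {sep : Prop} {P : Sch k → Prop} {d : ℕ}

lemma thin_of_graph (hP : Bnd sep P) {S : Set k} {m : ℕ}
    (M : Matrix (Fin m) (Fin m) (MvPolynomial (Fin d) k)) (hM : IsPat S M) (hT : Thin M)
    (h : ∀ G : LabelledGraph k d, (S = {0, 1} → G.Ones) → P G.scheme) : P (secGL M) := by
  classical
  have h1 : ∀ i j, ∃ x : k ⊕ Fin d, M i j = Sum.elim C X x ∧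
      ∀ c, x = Sum.inl c → c ∈ S := by
    intro i j
    rcases hM.entry i j with ⟨c, hc, h2⟩ | ⟨s, h2⟩
    · refine ⟨Sum.inl c, h2, fun c' h3 => ?_⟩
      rw [← Sum.inl.inj h3]
      exact hc
    · exact ⟨Sum.inr s, h2, fun c' h3 => by cases h3⟩
  choose f hf hfS using h1
  have h3 := h (lgraph M hT f) fun hS => ones_lgraph M hT f fun i j hne c hc => by
    have h4 := hfS i j c hc
    rw [hS] at h4
    rcases h4 with h5 | h5
    · exfalso
      apply hne
      rw [hf i j, hc, h5]
      exact C_0
    · exact h5
  obtain ⟨u, hu, hdet⟩ := det_dbl M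
  have h5 : (lgraph M hT f).adj.det = u * M.det ^ 2 := by
    rw [adj_lgraph M hT f hf]
    exact (det_submatrix_equiv_self _ _).trans hdet
  rw [LabelledGraph.scheme, h5] at h3
  refine Pool.Agent.H9.LS.away_congr hP (m := 2) (n := 1) ?_ ?_ h3
  · exact ⟨u, by rw [mul_comm (u * M.det ^ 2) u, ← mul_assoc, hu, one_mul]⟩
  · rw [pow_one]
    exact ⟨u * M.det, by ring⟩

/-- the schemes of dimension at most `n` from the labelled graphs -/
theorem dim_of_graphs [PerfectField k] (hP : Bnd sep P) {n : ℕ}
    (h : ∀ G : LabelledGraph k (n + 1), (Pool.Agent.Q193.LT.Frac k → G.Ones) → P G.scheme)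
    (X : Sch k) (hX : FT sep X) (hn : topologicalKrullDim X.left ≤ n) : P X := by
  by_cases hk : Pool.Agent.Q193.LT.Frac k
  · refine dim_of_thin (enough_frac hk) hP (fun m M hM hT => ?_) X hX hn
    exact thin_of_graph hP M hM hT fun G hG => h G fun _ => hG rfl
  · refine dim_of_thin (enough_univ (R := k)) hP (fun m M hM hT => ?_) X hX hn
    exact thin_of_graph hP M hM hT fun G _ => h G fun h1 => (hk h1).elim

/-- the labelled graphs from the schemes of dimension at most `n` -/
theorem graphs_of_dim (hP : Bnd sep P) {n : ℕ} (h : ∀ (X : Sch k), FT sep X →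
    topologicalKrullDim X.left ≤ n → P X) (G : LabelledGraph k (n + 1)) : P G.scheme := by
  refine away_of_dim hP (fun A _ _ _ hA => h _ (ft_aff sep) ?_) G.adj.det
  rw [topDim_aff]
  exact hA

end main

end Pool.Agent.H9.LG
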