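import Pool.Agent.H9.LG.Graph
import Pool.Agent.H9.CD.Main

/-!
# Labelled graphs of maximal degree three decide, dimension by dimension
-/

set_option autoImplicit false

open CategoryTheory Limits AlgebraicGeometry Pool.Agent.Y116.UV Pool.Agent.Z125.UN
  Pool.Agent.W5h93.EV Pool.Agent.W5h93.EX Pool.Agent.W5h93.WC Pool.Agent.W5h68.CP
  Pool.Agent.H9.CD MonoidalCategory

universe v u w

namespace Pool.Agent.H9.LG

variable {k : Type} [Field k]

/-- **Labelled graphs of maximal degree three decide, dimension by dimension.** -/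
theorem graphsDecide [PerfectField k] {Θ : Type w} {Q : Sch k → Prop}
    {C P : Θ → Sch k → Prop} (hP : ∀ θ, Bnd True (P θ)) (hF : ∀ θ, FiniteDesc (P θ))
    (hQ : IsClass Q) (hA : HasAlterations Q) (h : ∀ θ X, Q X → (C θ X ↔ P θ X)) :
    GraphsDecide Q C P := by
  have hall : ∀ θ (n : ℕ), (∀ X, Q X → topologicalKrullDim X.left ≤ n → C θ X) →
      ∀ X, FT True X → topologicalKrullDim X.left ≤ n → P θ X := fun θ n h1 X hX hn =>
    devissage_alt (hP θ) (hF θ) hQ hA (fun Y hY hd => (h θ Y hY).mp (h1 Y hY hd)) X hX hn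
  refine ⟨fun θ n => ⟨fun h1 G => graphs_of_dim (hP θ) (hall θ n h1) G, fun h1 X hX hn => ?_⟩,
    fun hk θ n => ⟨fun h1 G _ => graphs_of_dim (hP θ) (hall θ n h1) G, fun h1 X hX hn => ?_⟩,
    fun n X hX hn => ?_⟩
  · exact (h θ X hX).mpr (dim_of_graphs (hP θ) (fun G _ => h1 G) X (hQ.ft hX) hn)
  · exact (h θ X hX).mpr (dim_of_graphs (hP θ) (fun G hG => h1 G (hG hk)) X (hQ.ft hX) hn)
  · let ι : Type := {G : LabelledGraph k (n + 1) // Pool.Agent.Q193.LT.Frac k → G.Ones}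
    obtain ⟨L, hL⟩ := dim_of_graphs
      (bnd_few (g := fun G : ι => G.1.scheme) hP)
      (fun G hG => Few.gen (g := fun G : ι => G.1.scheme) ⟨G, hG⟩) X (hQ.ft hX) hn
    refine ⟨L.map Subtype.val, fun hk G hG => ?_, fun θ h1 => (h θ X hX).mpr (hL θ fun G hG => ?_)⟩
    · obtain ⟨G', -, rfl⟩ := List.mem_map.mp hG
      exact G'.2 hk
    · exact h1 G.1 (List.mem_map_of_mem hG)

section wc

variable {𝒜 : Type u} [Category.{v} 𝒜] [Preadditive 𝒜] [HasZeroObject 𝒜]
  [HasBinaryBiproducts 𝒜] [MonoidalCategory 𝒜] [MonoidalPreadditive 𝒜] {T : ℤ → 𝒜}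
  {W : Sch k → HomotopyCategory 𝒜 (ComplexShape.up ℤ)}

/-- **Labelled graphs of maximal degree three decide, for classes of motives closed under sums, retracts
and Tate twists.** -/
theorem graphsDecide_wc [PerfectField k] {Θ : Type w} {V : Θ → Cls 𝒜}
    (hT : ∀ (θ : Θ) (j : ℤ) (A : 𝒜), (V θ).prop A → (V θ).prop (A ⊗ T j))
    (h0 : ∀ θ, (V θ).prop (T 0)) (hW : IsWeightComplex T W) (hc : HasFiniteCovers W)
    {Q : Sch k → Prop} (hQ : IsClass Q) (hA : HasAlterations Q) (h : Sch k → 𝒜)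
    (hh : ∀ X, Q X → Nonempty (W X ≅ cpx (h X))) :
    GraphsDecide Q (fun θ X => (V θ).prop (h X)) (fun θ X => Null (V θ).prop (W X).as) :=
  graphsDecide (fun θ => bnd_wc (hT θ) (h0 θ) hW) (fun θ => finiteDesc_null hc) hQ hA
    fun θ X hX => by
      obtain ⟨e⟩ := hh X hX
      rw [← null_cpx]
      exact ⟨fun h1 => h1.of_iso e.symm, fun h1 => h1.of_iso e⟩

end wc

end Pool.Agent.H9.LG
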