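import Pool.Agent.H9.LG.Main
import Pool.Agent.H95.HC.Main
import Pool.Agent.H57.TB.Res

/-!
# Cohomology with compact supports of labelled graphs of maximal degree three
-/

set_option autoImplicit false

open CategoryTheory CategoryTheory.Limits AlgebraicGeometry MvPolynomial Pool.Agent.Y116.UV
  Pool.Agent.Z125.UN Pool.Agent.Q193.LT Pool.Agent.H95.HC

universe v u

namespace Pool.Agent.H9.LG

variable {k : Type} [Field k] {M : Type u} [Category.{v} M] [Abelian M] {D : CompactData k M}

/-- The objects `H^i_c(G.scheme)` for the labelled bipartite graphs `G` of maximal degree at most three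
with the variables `x_1, …, x_d`; if all elements of `k` are quotients of integers (`k` is `ℚ` or `𝔽_p`),
only for the graphs whose edges are labelled by `1` and by variables. -/
def OfLabelled (D : CompactData k M) (d : ℕ) (N : M) : Prop :=
  ∃ (G : LabelledGraph k d) (i : ℤ), (Frac k → G.Ones) ∧ N = D.H i G.scheme

/-- The labelled graph without vertices. -/
def noGraph (k : Type) [Field k] (d : ℕ) : LabelledGraph k d where
  m := 0
  graph := ⊥
  label := fun _ => Sum.inl 1
  bipartite := ⟨SimpleGraph.Coloring.mk (fun v => v.elim0) fun {v} => v.elim0⟩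
  degree_le := fun v => v.elim0

lemma noGraph_ones (d : ℕ) : (noGraph k d).Ones := by
  intro e _ c hc
  exact (Sum.inl.inj hc).symm

lemma noGraph_det (d : ℕ) : (noGraph k d).adj.det = 1 :=
  Matrix.det_isEmpty (n := Fin 0)

/-- its scheme is the affine space -/
noncomputable def noGraphIso (d : ℕ) : MvPolynomial (Fin d) k ≃ₐ[k]
    Localization.Away (noGraph k d).adj.det :=
  (IsLocalization.atUnit (MvPolynomial (Fin d) k) (Localization.Away (noGraph k d).adj.det)
    (noGraph k d).adj.det (by rw [noGraph_det]; exact isUnit_one)).restrictScalars k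

/-- The cohomology of the point from the cohomology of the affine space. -/
lemma point_of_labelled {S : M → Prop} (hD : IsCompact D) (hS : IsTateSerre D S) (n : ℕ)
    (h : ∀ i, S (D.H i (noGraph k n).scheme)) (i : ℤ) : S (D.H i (aff k k)) := by
  have h1 : ∀ i, S (D.H i (aff k (MvPolynomial (Fin n) k))) := fun i => by
    obtain ⟨e⟩ := hD.iso (ft_aff True) ⟨affIso (noGraphIso (k := k) n)⟩ i
    exact hS.toIsSerre.iso e (h i)
  have h2 : ∀ i, S (D.H i (aff k (Jou (f1 k n)))) := fun i => by
    obtain ⟨e⟩ := hD.iso (ft_aff True) ⟨(affIso (jouOne k n)).symm⟩ i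
    exact hS.toIsSerre.iso e.symm (h1 i)
  obtain ⟨e⟩ := hD.bundle k (n + 1) (f1 k n) (aff k k) (𝟙 _) inferInstance
    (Pool.Agent.H57.TB.range_one n) (i - 2 * (1 - (n + 1 : ℕ)))
  have h3 := hS.untwist hD _ _ (hS.toIsSerre.iso e (h2 _))
  rwa [sub_add_cancel] at h3

section

/-- the cohomology of the point -/
lemma point_labelled (hD : IsMotives D) (n : ℕ) (i : ℤ) :
    FactorOfSum D (OfLabelled D n) (D.H i (aff k k)) :=
  point_of_labelled hD.compact (gen_serre hD.compact hD.semisimple) n
    (fun i => FactorOfSum.self hD.compact ⟨noGraph k n, i, fun _ => noGraph_ones n, rfl⟩) i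

variable [PerfectField k]

/-- **The cohomology of the schemes of dimension at most `n` is generated by the labelled graphs with
`n + 1` variables.** -/
theorem labelled_factor (hD : IsMotives D) {n : ℕ} {X : Sch k} (hX : FT True X)
    (hn : topologicalKrullDim X.left ≤ n) (i : ℤ) :
    FactorOfSum D (OfLabelled D (n + 1)) (D.H i X) :=
  dim_of_graphs (bnd_compact hD.compact (gen_serre hD.compact hD.semisimple)
    (point_labelled hD (n + 1))) (fun G hG i => FactorOfSum.self hD.compact ⟨G, i, hG, rfl⟩)
    X hX hn i

/-- **The cohomology of the labelled graphs with `n + 1` variables is generated by smooth projective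
schemes of dimension at most `n`.** -/
theorem graph_factor (hD : IsMotives D) {n : ℕ} (G : LabelledGraph k (n + 1)) (i : ℤ) :
    FactorOfSum D (OfProj D n) (D.H i G.scheme) := by
  have hS : IsTateSerre D (FactorOfSum D (OfProj D n)) := gen_serre hD.compact hD.semisimple
  have h1 : ∀ Y : Sch k, SmoothProj Y → topologicalKrullDim Y.left ≤ n →
      ∀ i, FactorOfSum D (OfProj D n) (D.H i Y) := fun Y hY hn i =>
    FactorOfSum.self hD.compact ⟨Y, i, hY, hn, rfl⟩
  exact graphs_of_dim (bnd_compact hD.compact hS
    (point_factor hD.compact hD.generated hD.semisimple n h1))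
    (fun Y hY hn => hD.generated n _ hS h1 Y hY hn) G i

/-- **Finite direct sums: smooth projective schemes of dimension at most `n`, and labelled graphs with
`n + 1` variables.** -/
theorem sums_labelled {P : M → Prop}
    (hP : ∀ {X Y : M} (i : X ⟶ Y) (r : Y ⟶ X), i ≫ r = 𝟙 X → P Y → P X) (hD : IsMotives D)
    (n : ℕ) : SumsHave D (OfProj D n) P ↔ SumsHave D (OfLabelled D (n + 1)) P := by
  constructor
  · refine sumsHave_of_gen hD.compact hD.semisimple hP fun N hN => ?_
    obtain ⟨G, i, -, rfl⟩ := hN
    exact graph_factor hD G i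
  · refine sumsHave_of_gen hD.compact hD.semisimple hP fun N hN => ?_
    obtain ⟨Y, i, hY, hn, rfl⟩ := hN
    exact labelled_factor hD hY.ft hn i

end

end Pool.Agent.H9.LG
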