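import Pool.Agent.H9.LG.Motives
import Pool.Agent.H91.QS.Murre
import Pool.Agent.H89.L.W5h93_EU_Fin

/-!
# Murre's conjectures and labelled graphs of maximal degree three
-/

set_option autoImplicit false
set_option linter.unusedSectionVars false

open CategoryTheory Limits MonoidalCategory AlgebraicGeometry Pool.Agent.Y116.UV
  Pool.Agent.Z125.UN Pool.Agent.W5h93.EV Pool.Agent.W5h93.EX Pool.Agent.W5h93.WC
  Pool.Agent.W5h68.CP Pool.Agent.H91.QS Pool.Agent.H9.CD

universe v u v' u'

namespace Pool.Agent.H9.LG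

section point

variable {k : Type} [Field k] {𝒜 : Type u} [Category.{v} 𝒜] [Preadditive 𝒜] [HasZeroObject 𝒜]
  [HasBinaryBiproducts 𝒜] [MonoidalCategory 𝒜] [MonoidalPreadditive 𝒜] {T : ℤ → 𝒜}
  {W : Sch k → HomotopyCategory 𝒜 (ComplexShape.up ℤ)}

/-- the point from the graph without vertices -/
lemma unit_of_noGraph {V : Cls 𝒜} (hT : ∀ (j : ℤ) (A : 𝒜), V.prop A → V.prop (A ⊗ T j))
    (hW : IsWeightComplex T W) (d : ℕ) (h : Null V.prop (W (noGraph k d).scheme).as) :
    V.prop (T 0) := by
  have h1 : Null V.prop (W (aff k (MvPolynomial (Fin d) k))).as := by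
    obtain ⟨e⟩ := hW.iso (ft_aff True) ⟨affIso (noGraphIso (k := k) d)⟩
    exact h.of_iso e
  have : Algebra.FiniteType k (Jou (f1 k d)) :=
    Algebra.FiniteType.trans (S := k) inferInstance inferInstance
  have h2 : Null V.prop (W (aff k (Jou (f1 k d)))).as := by
    obtain ⟨e⟩ := hW.iso (X := aff k (Jou (f1 k d))) (Y := aff k (MvPolynomial (Fin d) k))
      (ft_aff True) ⟨(affIso ((jouOne k d).restrictScalars k)).symm⟩
    exact h1.of_iso e.symm
  obtain ⟨-, ⟨e⟩⟩ := hW.bundle k (d + 1) (f1 k d) (aff k k) (compl_one k d)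
  have h3 : Null V.prop (W (aff k k)).as := (h2.map _ (hT _)).of_iso e.symm
  obtain ⟨e'⟩ := hW.point
  exact (null_cpx (V := V)).mp (h3.of_iso e')

end point

section murre

variable {k : Type} [Field k] {𝒜 : Type u} [Category.{v} 𝒜] [Preadditive 𝒜] [HasZeroObject 𝒜]
  [HasBinaryBiproducts 𝒜] [IsIdempotentComplete 𝒜] [MonoidalCategory 𝒜] [MonoidalPreadditive 𝒜]
  {𝒢 : Type u'} [Category.{v'} 𝒢] [Preadditive 𝒢] {T : ℤ → 𝒜} {H : ℤ → 𝒜 ⥤ 𝒢}
  {W : Sch k → HomotopyCategory 𝒜 (ComplexShape.up ℤ)}

/-- **Murre's conjectures and labelled graphs of maximal degree three.**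

* `dim`: for every `n`, the strong form of Murre's conjectures for the motives of dimension at most `n`
  is equivalent to the statement that the weight complexes of the open subschemes of the affine space
  of dimension `n + 1` where the adjacency matrix of a labelled graph with `n + 1` variables is
  invertible are null, for all labelled bipartite graphs of maximal degree at most three (labelled by
  `1` and by variables, if all elements of `k` are quotients of integers).
* `all`: Murre's conjectures for all motives are equivalent to the same statement with any number of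
  variables.
* `list`: for every scheme `X` of the class of dimension at most `n` there are finitely many such labelled
  graphs with `n + 1` variables such that `h X` is a strong Murre motive if the weight complexes of
  their schemes are null. -/
structure MurreGraphs (T : ℤ → 𝒜) (H : ℤ → 𝒜 ⥤ 𝒢)
    (W : Sch k → HomotopyCategory 𝒜 (ComplexShape.up ℤ)) (Q : Sch k → Prop) (h : Sch k → 𝒜) :
    Prop where
  dim : ∀ n : ℕ, [∀ M, DimGen T h Q n M → Strong H (DimGen T h Q n) M,
    ∀ G : LabelledGraph k (n + 1), Null (Strong H (DimGen T h Q n)) (W G.scheme).as,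
    ∀ G : LabelledGraph k (n + 1), (Pool.Agent.Q193.LT.Frac k → G.Ones) →
      Null (Strong H (DimGen T h Q n)) (W G.scheme).as].TFAE
  all : [∀ M : 𝒜, Murre T H M,
    ∀ (d : ℕ) (G : LabelledGraph k d), Null (Strong H fun _ => True) (W G.scheme).as,
    ∀ (d : ℕ) (G : LabelledGraph k d), (Pool.Agent.Q193.LT.Frac k → G.Ones) →
      Null (Strong H fun _ => True) (W G.scheme).as].TFAE
  list : ∀ (n : ℕ) (X : Sch k), Q X → topologicalKrullDim X.left ≤ n →
    ∃ L : List (LabelledGraph k (n + 1)), (Pool.Agent.Q193.LT.Frac k → ∀ G ∈ L, G.Ones) ∧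
      ((∀ G ∈ L, Null (Strong H fun _ => True) (W G.scheme).as) → Strong H (fun _ => True) (h X))

variable (hT : IsTate T) (hH : IsHomology T H) (hW : IsWeightComplex T W) {Q : Sch k → Prop}
  (hQ : IsClass Q) {h : Sch k → 𝒜} (hh : ∀ X, Q X → Nonempty (W X ≅ cpx (h X)))

include hT hH hW hQ hh

/-- **Murre's conjectures and labelled graphs of maximal degree three.** -/
theorem murreGraphs [PerfectField k] [RightRigidCategory 𝒜] (hc : HasFiniteCovers W)
    (hA : HasAlterations Q) (hpt : Q (aff k k)) (hG : ∀ M, Pool.Agent.W5h93.WC.Gen T h Q M) :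
    MurreGraphs T H W Q h := by
  have hadd := hH.additive
  have hn1 : ∃ A : 𝒜, (fun _ : 𝒜 => True) A := ⟨T 0, trivial⟩
  have hS1 : ∀ A B : 𝒜, (fun _ : 𝒜 => True) A → (fun _ : 𝒜 => True) B →
    (fun _ : 𝒜 => True) (A ⊞ B) := fun _ _ _ _ => trivial
  have hR1 : Ret (fun _ : 𝒜 => True) := fun _ _ _ _ _ _ => trivial
  have hN1 : ∀ (A : 𝒜) (l : ℤ), (fun _ : 𝒜 => True) A → (fun _ : 𝒜 => True) (A ⊗ T l) :=
    fun _ _ _ => trivial
  let V1 : Cls 𝒜 := strongCls (H := H) hn1 hS1 hR1
  have hB1 : V1.prop (T 0) → Bnd True fun X : Sch k => Null V1.prop (W X).as := fun h0 =>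
    bnd_wc (V := V1) (fun l A hA => Strong.twist hN1 hT hH hA l) h0 hW
  refine ⟨fun n => ?_, ?_, fun n X hX hn => ?_⟩
  · have hne : ∃ A : 𝒜, DimGen T h Q n A := ⟨_, dimGen_point hpt n⟩
    let V : Cls 𝒜 := strongCls (H := H) hne (fun _ _ => Gen.sum) Gen.ret
    tfae_have 1 → 2 := by
      intro h1
      have h3 := bnd_of_strong hT hH hW hQ hh hne (fun _ _ => Gen.sum) Gen.ret
        (fun _ l hA => hA.twist l) hpt (h1 _ (dimGen_point hpt n))
      refine graphs_of_dim h3 fun X hX hn => ?_
      refine devissage_alt h3 (finiteDesc_null (V := V) hc) hQ hA (fun Y hY hd => ?_) X hX hn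
      obtain ⟨e⟩ := hh Y hY
      exact ((null_cpx (V := V)).mpr (h1 _ (Gen.of (Q := fun X => Q X ∧
        topologicalKrullDim X.left ≤ n) ⟨hY, hd⟩))).of_iso (V := V) e.symm
    tfae_have 2 → 3 := fun h1 G _ => h1 G
    tfae_have 3 → 1 := by
      intro h1 M hM
      have h0 : V.prop (T 0) := unit_of_noGraph (V := V)
        (fun l A hA => Strong.twist (fun _ l hA => hA.twist l) hT hH hA l) hW (n + 1)
        (h1 _ fun _ => noGraph_ones _)
      have h3 : Bnd True fun X : Sch k => Null V.prop (W X).as :=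
        bnd_wc (V := V) (fun l A hA => Strong.twist (fun _ l hA => hA.twist l) hT hH hA l) h0 hW
      refine hM _ (fun A B hA hB => Strong.sum (Gen.sum) hA hB)
        (fun A l hA => Strong.twist (fun _ l hA => hA.twist l) hT hH hA l)
        (fun A B s r hs hB => Strong.retract Gen.ret s r hs hB) fun X hX => ?_
      obtain ⟨e⟩ := hh X hX.1
      exact (null_cpx (V := V)).mp ((dim_of_graphs h3 (fun G hG => h1 G hG) X (hQ.ft hX.1)
        hX.2).of_iso (V := V) e)
    tfae_finish
  · tfae_have 1 → 2 := fun h1 d G => null_all hH ((murre_iff hT hH).mp h1) _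
    tfae_have 2 → 3 := fun h1 d G _ => h1 d G
    tfae_have 3 → 1 := by
      intro h1
      rw [murre_iff hT hH]
      intro M
      have h0 : V1.prop (T 0) := unit_of_noGraph (V := V1)
        (fun l A hA => Strong.twist hN1 hT hH hA l) hW 0 (h1 0 _ fun _ => noGraph_ones _)
      refine hG M _ (fun A B hA hB => Strong.sum (fun _ _ => trivial) hA hB)
        (fun A l hA => Strong.twist hN1 hT hH hA l)
        (fun A B s r hs hB => Strong.retract hR1 s r hs hB) fun X hX => ?_
      obtain ⟨n, hn⟩ := Pool.Agent.W5h93.EU.dim_finite X (hQ.ft hX)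
      obtain ⟨e⟩ := hh X hX
      exact (null_cpx (V := V1)).mp ((dim_of_graphs (hB1 h0) (fun G hG => h1 _ G hG) X
        (hQ.ft hX) hn).of_iso (V := V1) e)
    tfae_finish
  · by_cases h0 : V1.prop (T 0)
    · let ι : Type := {G : LabelledGraph k (n + 1) // Pool.Agent.Q193.LT.Frac k → G.Ones}
      obtain ⟨L, hL⟩ := dim_of_graphs
        (bnd_few (Θ := Unit) (g := fun G : ι => G.1.scheme) fun _ => hB1 h0)
        (fun G hG => Few.gen (g := fun G : ι => G.1.scheme) ⟨G, hG⟩) X (hQ.ft hX) hn
      refine ⟨L.map Subtype.val, fun hk G hG => ?_, fun h1 => ?_⟩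
      · obtain ⟨G', -, rfl⟩ := List.mem_map.mp hG
        exact G'.2 hk
      · obtain ⟨e⟩ := hh X hX
        exact (null_cpx (V := V1)).mp ((hL () fun G hG =>
          h1 G.1 (List.mem_map_of_mem hG)).of_iso (V := V1) e)
    · refine ⟨[noGraph k (n + 1)], fun _ G hG => ?_, fun h1 => (h0 ?_).elim⟩
      · rw [List.mem_singleton.mp hG]
        exact noGraph_ones _
      · exact unit_of_noGraph (V := V1) (fun l A hA => Strong.twist hN1 hT hH hA l) hW (n + 1)
          (h1 _ (List.mem_singleton_self _))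

end murre

end Pool.Agent.H9.LG
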