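import Pool.Agent.H9.LG.Murre
import Pool.Agent.H91.QS.Ord

/-!
# Ordinary places and labelled graphs of maximal degree three
-/

set_option autoImplicit false
set_option linter.unusedSectionVars false

open CategoryTheory Limits MonoidalCategory AlgebraicGeometry Filter Pool.Agent.Y116.UV
  Pool.Agent.Z125.UN Pool.Agent.W5h93.EV Pool.Agent.W5h93.EX Pool.Agent.W5h93.WC
  Pool.Agent.W5h68.CP Pool.Agent.H91.QS Pool.Agent.H9.CD

universe v u

namespace Pool.Agent.H9.LG

variable {𝒜 : Type u} [Category.{v} 𝒜] [Preadditive 𝒜] [HasBinaryBiproducts 𝒜]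
  [MonoidalCategory 𝒜] {ι : Type} {D : MotSlopes 𝒜 ι} {T : ℤ → 𝒜}
  {k : Type} [Field k] [HasZeroObject 𝒜] [MonoidalPreadditive 𝒜]
  [IsIdempotentComplete 𝒜] {W : Sch k → HomotopyCategory 𝒜 (ComplexShape.up ℤ)}
  {Q : Sch k → Prop} {h : Sch k → 𝒜}

/-- **Common ordinary places and labelled graphs of maximal degree three.**

* `dim`: for every `n`, common ordinary places for all finite families of schemes of the class of dimension
  at most `n` are equivalent to common ordinary places for a class `R` of motives modulo which the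
  weight complexes of the open subschemes of the affine space of dimension `n + 1` where the adjacency
  matrix of a labelled graph with `n + 1` variables is invertible are null, for all labelled bipartite
  graphs of maximal degree at most three (labelled by `1` and by variables, if all elements of `k` are
  quotients of integers).
* `all`: the same for all schemes of the class and all numbers of variables. -/
structure CommonGraphs (D : MotSlopes 𝒜 ι) (T : ℤ → 𝒜)
    (W : Sch k → HomotopyCategory 𝒜 (ComplexShape.up ℤ)) (Q : Sch k → Prop) (h : Sch k → 𝒜) :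
    Prop where
  dim : ∀ n : ℕ, [D.HasCommon (Gen T h fun X => Q X ∧ topologicalKrullDim X.left ≤ n),
    ∃ R : 𝒜 → Prop, D.HasCommon R ∧ ∀ G : LabelledGraph k (n + 1), Null R (W G.scheme).as,
    ∃ R : 𝒜 → Prop, D.HasCommon R ∧ ∀ G : LabelledGraph k (n + 1),
      (Pool.Agent.Q193.LT.Frac k → G.Ones) → Null R (W G.scheme).as].TFAE
  all : [D.HasCommon (Gen T h Q),
    ∃ R : 𝒜 → Prop, D.HasCommon R ∧ ∀ (d : ℕ) (G : LabelledGraph k d), Null R (W G.scheme).as,
    ∃ R : 𝒜 → Prop, D.HasCommon R ∧ ∀ (d : ℕ) (G : LabelledGraph k d),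
      (Pool.Agent.Q193.LT.Frac k → G.Ones) → Null R (W G.scheme).as].TFAE

variable [PerfectField k]

/-- **The reduction for all filters of sets of places.** -/
theorem ord_graphs (hD : D.IsRealization T) (hW : IsWeightComplex T W) (hc : HasFiniteCovers W)
    (hQ : IsClass Q) (hA : HasAlterations Q) (hh : ∀ X, Q X → Nonempty (W X ≅ cpx (h X))) :
    GraphsDecide (Θ := {𝓕 : Filter ι // 𝓕 ≤ cofinite}) Q (fun 𝓕 X => D.OrdAlong 𝓕.1 (h X))
      (fun 𝓕 X => Null (D.OrdAlong 𝓕.1) (W X).as) :=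
  graphsDecide_wc (V := fun 𝓕 : {𝓕 : Filter ι // 𝓕 ≤ cofinite} => ordCls hD 𝓕.2)
    (fun 𝓕 l _ hA => OrdAlong.twist hD 𝓕.2 l hA) (fun 𝓕 j => (hD.unit j).filter_mono 𝓕.2)
    hW hc hQ hA h hh

lemma null_mono {R S : 𝒜 → Prop} (hRS : ∀ M, R M → S M) {K : CochainComplex 𝒜 ℤ}
    (hK : Null R K) : Null S K := by
  obtain ⟨σ, hσ⟩ := hK
  refine ⟨σ, fun i => ?_⟩
  obtain ⟨C, a, b, hC, hab⟩ := hσ i
  exact ⟨C, a, b, hRS C hC, hab⟩

/-- **Common ordinary places.** -/
theorem commonGraphs (hD : D.IsRealization T) (hW : IsWeightComplex T W) (hc : HasFiniteCovers W)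
    (hQ : IsClass Q) (hA : HasAlterations Q) (hh : ∀ X, Q X → Nonempty (W X ≅ cpx (h X))) :
    CommonGraphs D T W Q h := by
  have hO := ord_graphs hD hW hc hQ hA hh
  refine ⟨fun n => ?_, ?_⟩
  · tfae_have 1 → 2 := by
      intro h1
      rw [hasCommon_iff] at h1
      obtain ⟨𝒰, hU, h1⟩ := h1
      refine ⟨D.OrdAlong 𝒰, hasCommon_iff.mpr ⟨𝒰, hU, fun M hM => hM⟩, ?_⟩
      exact (hO.dim ⟨𝒰, hU⟩ n).mp fun X hX hXn => h1 _
        (Gen.of (Q := fun X => Q X ∧ topologicalKrullDim X.left ≤ n) ⟨hX, hXn⟩)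
    tfae_have 2 → 3 := fun ⟨R, hR, h1⟩ => ⟨R, hR, fun G _ => h1 G⟩
    tfae_have 3 → 1 := by
      rintro ⟨R, hR, h2⟩
      rw [hasCommon_iff] at hR ⊢
      obtain ⟨𝒰, hU, h3⟩ := hR
      refine ⟨𝒰, hU, fun M hG => ordAlong_gen hD hU (fun X hX => ?_) hG⟩
      by_cases hk : Pool.Agent.Q193.LT.Frac k
      · exact (hO.dim_ones hk ⟨𝒰, hU⟩ n).mpr (fun G hG => null_mono h3 (h2 G fun _ => hG)) X
          hX.1 hX.2
      · exact (hO.dim ⟨𝒰, hU⟩ n).mpr (fun G => null_mono h3 (h2 G fun h4 => (hk h4).elim)) X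
          hX.1 hX.2
    tfae_finish
  · tfae_have 1 → 2 := by
      intro h1
      rw [hasCommon_iff] at h1
      obtain ⟨𝒰, hU, h1⟩ := h1
      refine ⟨D.OrdAlong 𝒰, hasCommon_iff.mpr ⟨𝒰, hU, fun M hM => hM⟩, fun d G => ?_⟩
      let V : Cls 𝒜 := ordCls hD hU
      have hB : Bnd True fun X : Sch k => Null V.prop (W X).as :=
        bnd_wc (V := V) (fun l _ hA => OrdAlong.twist hD hU l hA)
          (fun j => (hD.unit j).filter_mono hU) hW
      have hft : FT True G.scheme := by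
        have : Algebra.FiniteType k (Localization.Away G.adj.det) :=
          Algebra.FiniteType.trans (S := MvPolynomial (Fin d) k) inferInstance inferInstance
        exact ft_aff True
      obtain ⟨n, hn⟩ := Pool.Agent.W5h93.EU.dim_finite G.scheme hft
      refine devissage_alt hB (finiteDesc_null (V := V) hc) hQ hA (fun Y hY hd => ?_) _ hft hn
      obtain ⟨e⟩ := hh Y hY
      exact ((null_cpx (V := V)).mpr (h1 _ (Gen.of (Q := Q) hY))).of_iso (V := V) e.symm
    tfae_have 2 → 3 := fun ⟨R, hR, h1⟩ => ⟨R, hR, fun d G _ => h1 d G⟩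
    tfae_have 3 → 1 := by
      rintro ⟨R, hR, h2⟩
      rw [hasCommon_iff] at hR ⊢
      obtain ⟨𝒰, hU, h3⟩ := hR
      refine ⟨𝒰, hU, fun M hG => ordAlong_gen hD hU (fun X hX => ?_) hG⟩
      obtain ⟨n, hn⟩ := Pool.Agent.W5h93.EU.dim_finite X (hQ.ft hX)
      by_cases hk : Pool.Agent.Q193.LT.Frac k
      · exact (hO.dim_ones hk ⟨𝒰, hU⟩ n).mpr (fun G hG => null_mono h3 (h2 _ G fun _ => hG)) X
          hX hn
      · exact (hO.dim ⟨𝒰, hU⟩ n).mpr (fun G => null_mono h3 (h2 _ G fun h4 => (hk h4).elim)) X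
          hX hn
    tfae_finish

end Pool.Agent.H9.LG
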