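import Pool.Agent.H9.LG.Sparse
import Pool.Agent.H89.L.Y116_UV_Graph
import Pool.Agent.H89.L.Q193_LT_Prime

/-!
# Sparse linear sections of `GL_m` and polynomials up to constants
-/

set_option autoImplicit false

open CategoryTheory AlgebraicGeometry MvPolynomial

namespace Pool.Agent.H9.LG

open Pool.Agent.Y116.UV

variable {R : Type} [CommRing R] {S : Set R} {V : Type}

lemma frac_scale (hR : Pool.Agent.Q193.LT.Frac R) {σ : Type} (g : MvPolynomial σ R) :
    ∃ u : R, IsUnit u ∧ ∀ m, ∃ w : ℤ, (w : R) = coeff m (C u * g) := by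
  classical
  choose d n hd hn using hR
  refine ⟨∏ m ∈ g.support, (d (coeff m g) : R), ?_, ?_⟩
  · exact Finset.prod_induction _ IsUnit (fun _ _ => IsUnit.mul) isUnit_one fun m _ => hd _
  · intro m
    rw [coeff_C_mul]
    by_cases hm : m ∈ g.support
    · refine ⟨(∏ m' ∈ g.support.erase m, d (coeff m' g)) * n (coeff m g), ?_⟩
      rw [← Finset.prod_erase_mul _ _ hm]
      push_cast
      rw [mul_assoc, ← hn]
    · refine ⟨0, ?_⟩
      rw [notMem_support_iff.mp hm]
      simp

lemma reps_const (h0 : 0 ∈ S) (h1 : 1 ∈ S) {r : R} (hr : r ∈ AddSubgroup.closure S) :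
    RepS S (C r : MvPolynomial V R) := by
  induction hr using AddSubgroup.closure_induction with
  | mem c hc =>
    have h := reps_neg h0 h1 (reps_step h0 h1 (Or.inl ⟨c, hc, rfl⟩ : IsC S (C c : MvPolynomial V R))
      (reps_one h1))
    rwa [neg_neg, mul_one] at h
  | zero =>
    have h := reps_step h0 h1 (isC_zero (V := V) h0) (reps_one h1)
    rw [zero_mul, neg_zero] at h
    rwa [map_zero]
  | add a b _ _ ha hb =>
    rw [map_add]
    exact reps_add h0 ha hb
  | neg a _ ha =>
    rw [map_neg]
    exact reps_neg h0 h1 ha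

lemma reps_monomial (h0 : 0 ∈ S) (h1 : 1 ∈ S) (s : V →₀ ℕ) (r : R)
    (hr : r ∈ AddSubgroup.closure S) : RepS S (monomial s r : MvPolynomial V R) := by
  classical
  have key : ∀ (s : V →₀ ℕ) (r : R), (∀ m, coeff m (monomial s r) ∈ AddSubgroup.closure S) →
      RepS S (monomial s r : MvPolynomial V R) := by
    refine MvPolynomial.induction_on_monomial
      (motive := fun p => (∀ m, coeff m p ∈ AddSubgroup.closure S) → RepS S p) ?_ ?_
    · intro a h
      refine reps_const h0 h1 ?_
      have h2 := h 0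
      rwa [coeff_zero_C] at h2
    · intro p n hp h
      have h2 : RepS S p := hp fun m => by
        have h3 := h (m + Finsupp.single n 1)
        rwa [coeff_mul_X] at h3
      have h4 := reps_neg h0 h1 (reps_step h0 h1 (isC_X n) h2)
      rwa [neg_neg, mul_comm] at h4
  refine key s r fun m => ?_
  rw [coeff_monomial]
  split_ifs
  · exact hr
  · exact zero_mem _

/-- Polynomials with coefficients in the group generated by `S`. -/
theorem reps_coeff (h0 : 0 ∈ S) (h1 : 1 ∈ S) (g : MvPolynomial V R)
    (hg : ∀ m, coeff m g ∈ AddSubgroup.closure S) : RepS S g := by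
  classical
  rw [g.as_sum]
  refine Finset.sum_induction _ (RepS S) (fun _ _ => reps_add h0) ?_ fun m _ =>
    reps_monomial h0 h1 m _ (hg m)
  have h := reps_step h0 h1 (isC_zero (V := V) h0) (reps_one h1)
  rwa [zero_mul, neg_zero] at h

/-- Up to invertible constants all polynomials have coefficients in the group generated by `S`, which
contains `0` and `1`. -/
def Enough (S : Set R) : Prop := 0 ∈ S ∧ 1 ∈ S ∧
  ∀ (d : ℕ) (g : MvPolynomial (Fin d) R), ∃ u : R, IsUnit u ∧
    ∀ m, coeff m (C u * g) ∈ AddSubgroup.closure S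

lemma enough_univ : Enough (Set.univ : Set R) :=
  ⟨trivial, trivial, fun _ g => ⟨1, isUnit_one, fun _ => by
    rw [AddSubgroup.closure_univ]
    trivial⟩⟩

lemma enough_frac (hR : Pool.Agent.Q193.LT.Frac R) : Enough ({0, 1} : Set R) := by
  refine ⟨Or.inl rfl, Or.inr rfl, fun d g => ?_⟩
  obtain ⟨u, hu, hw⟩ := frac_scale hR g
  refine ⟨u, hu, fun m => ?_⟩
  obtain ⟨z, hz⟩ := hw m
  rw [← hz]
  have h : (1 : R) ∈ AddSubgroup.closure ({0, 1} : Set R) :=
    AddSubgroup.subset_closure (Or.inr rfl)
  have h2 := AddSubgroup.zsmul_mem _ h z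
  rwa [zsmul_one] at h2

variable {sep : Prop} {P : Sch R → Prop} {d : ℕ}

/-- complements of hypersurfaces -/
theorem scale_away (hS : Enough S)
    (hiso : ∀ {X Y : Sch R}, FT sep X → Nonempty (X ≅ Y) → P X → P Y)
    (h : ForThin S P d) (g : MvPolynomial (Fin d) R) : P (aff R (Localization.Away g)) := by
  obtain ⟨u, hu, hg⟩ := hS.2.2 d g
  obtain ⟨m, M, hM, hT, hdet⟩ := thin_of_rep hS.1 hS.2.1 (reps_coeff hS.1 hS.2.1 _ hg)
  have h4 := h _ M hM hT
  have h5 : IsLocalization.Away g (Localization.Away M.det) := by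
    have hu2 : Associated M.det g := by
      rw [hdet]
      have h6 : IsUnit (-(C u) : MvPolynomial (Fin d) R) := (hu.map C).neg
      have h7 : -(C u * g) = (-(C u)) * g := by ring
      rw [h7]
      exact associated_unit_mul_left g _ h6
    exact IsLocalization.Away.of_associated hu2
  have := ft_away (R := R) (MvPolynomial (Fin d) R) M.det
  obtain ⟨e⟩ := away_iso (R := R) g (S := Localization.Away M.det) (T := Localization.Away g)
  exact hiso (ft_aff sep) ⟨(affIso e).symm⟩ h4

/-- closed subschemes of the affine space -/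
theorem scale_ideal [IsNoetherianRing R] (hS : Enough S) (hP : Dev sep P) (h : ForThin S P d)
    (I : Ideal (MvPolynomial (Fin d) R)) : P (aff R (MvPolynomial (Fin d) R ⧸ I)) := by
  obtain ⟨G, hG⟩ := (isNoetherianRing_iff_ideal_fg _).mp (inferInstance :
    IsNoetherianRing (MvPolynomial (Fin d) R)) I
  have h2 : Ideal.span {x | x ∈ G.toList} = I := by
    rw [← hG]
    congr 1
    ext x
    simp
  rw [← h2]
  exact quot_of_list hP _ _ G.toList rfl fun M _ => scale_away hS hP.iso h M.prod

/-- all schemes of finite type -/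
theorem scale_all [IsNoetherianRing R] (hS : Enough S) (hP : Dev sep P) (h : ∀ d, ForThin S P d)
    (X : Sch R) (hX : FT sep X) : P X := by
  refine of_affine' hP.iso hP.total ?_ X hX
  intro A _ _ hA
  obtain ⟨d, φ, hφ⟩ := Algebra.FiniteType.iff_quotient_mvPolynomial''.mp hA
  exact iso_alg hP (Ideal.quotientKerAlgEquivOfSurjective hφ) (scale_ideal hS hP (h d) _)

end Pool.Agent.H9.LG
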